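import Mathlib

/-! Definitions: monotone real formulas and layered circuits for the clique function. -/

namespace Pool.Agent.Y652.CQ

open Finset

/-- `G` has a clique with more than `√n` vertices -/
def BigClique {n : ℕ} (G : SimpleGraph (Fin n)) : Prop :=
  ∃ K : Finset (Fin n), G.IsClique (K : Set (Fin n)) ∧ n < K.card ^ 2

/-- Formulas over the variables `x_ij`; the gates compute arbitrary real functions of two real
arguments. -/
inductive RealFormula (n : ℕ) : Type
  | var (i j : Fin n) : RealFormula n
  | gate (g : ℝ → ℝ → ℝ) (l r : RealFormula n) : RealFormula n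

open Classical in
/-- the value on a graph; the variable `x_ij` is 1 if `ij` is an edge and 0 otherwise -/
noncomputable def RealFormula.val {n : ℕ} (G : SimpleGraph (Fin n)) : RealFormula n → ℝ
  | .var i j => if G.Adj i j then 1 else 0
  | .gate g l r => g (l.val G) (r.val G)

/-- the gates are monotone -/
def RealFormula.Mono {n : ℕ} : RealFormula n → Prop
  | .var _ _ => True
  | .gate g l r => (∀ a a' b b', a ≤ a' → b ≤ b' → g a b ≤ g a' b') ∧ l.Mono ∧ r.Mono

/-- the number of leaves and gates -/
def RealFormula.size {n : ℕ} : RealFormula n → ℕ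
  | .var _ _ => 1
  | .gate _ l r => l.size + r.size + 1

/-- the graphs with a clique of more than `√n` vertices are those with value at least `θ` -/
def RealFormula.Decides {n : ℕ} (φ : RealFormula n) : Prop :=
  ∃ θ : ℝ, ∀ G, θ ≤ φ.val G ↔ BigClique G

/-- Layered circuits with `w` gates in each layer: the gate `i` of the layer `t + 1` computes an
arbitrary real function of all values of the layer `t` and of one variable. -/
structure Layered (n w : ℕ) where
  start : Fin w → ℝ
  g : ℕ → Fin w → (Fin w → ℝ) → ℝ → ℝ
  e : ℕ → Fin w → Fin n × Fin n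

open Classical in
/-- the values of the layer `t` on a graph -/
noncomputable def Layered.val {n w : ℕ} (P : Layered n w) (G : SimpleGraph (Fin n)) :
    ℕ → Fin w → ℝ
  | 0 => P.start
  | t + 1 => fun i => P.g t i (P.val G t) (if G.Adj (P.e t i).1 (P.e t i).2 then 1 else 0)

/-- the gates are monotone -/
def Layered.Mono {n w : ℕ} (P : Layered n w) : Prop :=
  ∀ t i u u' a a', (∀ k, u k ≤ u' k) → a ≤ a' → P.g t i u a ≤ P.g t i u' a'

/-- a gate of the layer `L` decides whether the graph has a clique of more than `√n` vertices -/
def Layered.Decides {n w : ℕ} (P : Layered n w) (L : ℕ) : Prop :=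
  ∃ (θ : ℝ) (i : Fin w), ∀ G, θ ≤ P.val G L i ↔ BigClique G

end Pool.Agent.Y652.CQ
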